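import Pool.Agent.W586.SK.Stm2

/-!
# Project SX: stability of the class of exchangeable log-concave densities (SX-BAS)
-/

set_option autoImplicit false

namespace Pool.Agent.W327.SX

open MeasureTheory Set
open scoped ENNReal InnerProductSpace
open Pool.Agent.H212R2.KLS (mu Bdd)
open Pool.Agent.H888R2.KT (LC St tw)
open Pool.Agent.W586.SK (E nm)
open Pool.Agent.W586.SX

section gen

variable {κ : Type} [Fintype κ] {q : ℕ}

theorem tw_cont (e : Fin q → EuclideanSpace ℝ κ) (K : ℝ)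
    (τ : EuclideanSpace ℝ (Fin q)) : Continuous (tw e K τ) := by
  unfold tw
  fun_prop

theorem tilt_logc (ρ : EuclideanSpace ℝ κ → ℝ) (h0 : ∀ x, 0 ≤ ρ x)
    (hlc : ∀ x y : EuclideanSpace ℝ κ, ∀ t : ℝ, 0 < t → t < 1 →
      ρ x ^ (1 - t) * ρ y ^ t ≤ ρ ((1 - t) • x + t • y))
    (e : Fin q → EuclideanSpace ℝ κ) (K : ℝ) (hK : 0 < K) (τ : EuclideanSpace ℝ (Fin q))
    (x y : EuclideanSpace ℝ κ) (t : ℝ) (ht0 : 0 < t) (ht1 : t < 1) :
    (ρ x * tw e K τ x) ^ (1 - t) * (ρ y * tw e K τ y) ^ t ≤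
      ρ ((1 - t) • x + t • y) * tw e K τ ((1 - t) • x + t • y) := by
  have h1 := hlc x y t ht0 ht1
  unfold tw
  rw [Real.mul_rpow (h0 x) (Real.exp_pos _).le,
    Real.mul_rpow (h0 y) (Real.exp_pos _).le, ← Real.exp_mul, ← Real.exp_mul]
  have e1 : ∀ j : Fin q, ⟪e j, (1 - t) • x + t • y⟫_ℝ =
      (1 - t) * ⟪e j, x⟫_ℝ + t * ⟪e j, y⟫_ℝ := by
    intro j
    rw [inner_add_right, inner_smul_right, inner_smul_right]
  simp only [e1]
  obtain ⟨a, ha⟩ : ∃ a : Fin q → ℝ, a = fun j => ⟪e j, x⟫_ℝ := ⟨_, rfl⟩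
  obtain ⟨b, hb⟩ : ∃ b : Fin q → ℝ, b = fun j => ⟪e j, y⟫_ℝ := ⟨_, rfl⟩
  have ha' : ∀ j, ⟪e j, x⟫_ℝ = a j := fun j => by rw [ha]
  have hb' : ∀ j, ⟪e j, y⟫_ℝ = b j := fun j => by rw [hb]
  simp only [ha', hb']
  have h3 : ∑ j, ((1 - t) * a j + t * b j - τ j) ^ 2 ≤
      (1 - t) * ∑ j, (a j - τ j) ^ 2 + t * ∑ j, (b j - τ j) ^ 2 := by
    rw [Finset.mul_sum, Finset.mul_sum, ← Finset.sum_add_distrib]
    refine Finset.sum_le_sum fun j _ => ?_
    have h4 : (1 - t) * (a j - τ j) ^ 2 + t * (b j - τ j) ^ 2 -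
        ((1 - t) * a j + t * b j - τ j) ^ 2 = t * (1 - t) * (a j - b j) ^ 2 := by ring
    have h5 : 0 ≤ t * (1 - t) * (a j - b j) ^ 2 :=
      mul_nonneg (mul_nonneg ht0.le (by linarith)) (sq_nonneg _)
    linarith
  have h2 : -((∑ j, (a j - τ j) ^ 2) / (2 * K)) * (1 - t) +
      -((∑ j, (b j - τ j) ^ 2) / (2 * K)) * t ≤
      -((∑ j, ((1 - t) * a j + t * b j - τ j) ^ 2) / (2 * K)) := by
    have h4 := div_le_div_of_nonneg_right h3 (by positivity : (0 : ℝ) ≤ 2 * K)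
    have h5 : ((1 - t) * ∑ j, (a j - τ j) ^ 2 + t * ∑ j, (b j - τ j) ^ 2) / (2 * K) =
        (∑ j, (a j - τ j) ^ 2) / (2 * K) * (1 - t) + (∑ j, (b j - τ j) ^ 2) / (2 * K) * t := by
      ring
    linarith
  calc ρ x ^ (1 - t) * Real.exp (-((∑ j, (a j - τ j) ^ 2) / (2 * K)) * (1 - t)) *
        (ρ y ^ t * Real.exp (-((∑ j, (b j - τ j) ^ 2) / (2 * K)) * t))
      = (ρ x ^ (1 - t) * ρ y ^ t) *
        Real.exp (-((∑ j, (a j - τ j) ^ 2) / (2 * K)) * (1 - t) +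
          -((∑ j, (b j - τ j) ^ 2) / (2 * K)) * t) := by
        rw [Real.exp_add]
        ring
    _ ≤ ρ ((1 - t) • x + t • y) *
        Real.exp (-((∑ j, ((1 - t) * a j + t * b j - τ j) ^ 2) / (2 * K))) :=
      mul_le_mul h1 (Real.exp_le_exp.2 h2) (Real.exp_pos _).le (h0 _)

theorem mid (ρ : EuclideanSpace ℝ κ → ℝ) (h0 : ∀ x, 0 ≤ ρ x)
    (hlc : ∀ x y : EuclideanSpace ℝ κ, ∀ t : ℝ, 0 < t → t < 1 →
      ρ x ^ (1 - t) * ρ y ^ t ≤ ρ ((1 - t) • x + t • y))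
    (x y : EuclideanSpace ℝ κ) :
    ρ x * ρ y ≤ (ρ ((1 / 2 : ℝ) • (x + y))) ^ 2 := by
  have h1 := hlc x y (1 / 2) (by norm_num) (by norm_num)
  have e1 : (1 - (1 / 2 : ℝ)) = 1 / 2 := by norm_num
  rw [e1, ← smul_add, ← Real.sqrt_eq_rpow, ← Real.sqrt_eq_rpow,
    ← Real.sqrt_mul (h0 x)] at h1
  have h2 := pow_le_pow_left₀ (Real.sqrt_nonneg _) h1 2
  rwa [Real.sq_sqrt (mul_nonneg (h0 x) (h0 y))] at h2

theorem tilt_st (ρ : EuclideanSpace ℝ κ → ℝ) (h0 : ∀ x, 0 ≤ ρ x)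
    (hlc : ∀ x y : EuclideanSpace ℝ κ, ∀ t : ℝ, 0 < t → t < 1 →
      ρ x ^ (1 - t) * ρ y ^ t ≤ ρ ((1 - t) • x + t • y))
    (e : Fin q → EuclideanSpace ℝ κ) (K : ℝ) (hK : 0 < K) (τ : EuclideanSpace ℝ (Fin q)) :
    St e K (fun x => ρ x * tw e K τ x) := by
  intro x y
  have h1 := mid ρ h0 hlc x y
  unfold tw
  have e1 : ∀ j : Fin q, ⟪e j, (1 / 2 : ℝ) • (x + y)⟫_ℝ =
      (1 / 2) * (⟪e j, x⟫_ℝ + ⟪e j, y⟫_ℝ) := by
    intro j
    rw [inner_smul_right, inner_add_right]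
  have e2 : ∀ j : Fin q, ⟪e j, x - y⟫_ℝ =
      ⟪e j, x⟫_ℝ - ⟪e j, y⟫_ℝ := fun j => inner_sub_right _ _ _
  simp only [e1, e2]
  obtain ⟨a, ha⟩ : ∃ a : Fin q → ℝ, a = fun j => ⟪e j, x⟫_ℝ := ⟨_, rfl⟩
  obtain ⟨b, hb⟩ : ∃ b : Fin q → ℝ, b = fun j => ⟪e j, y⟫_ℝ := ⟨_, rfl⟩
  have ha' : ∀ j, ⟪e j, x⟫_ℝ = a j := fun j => by rw [ha]
  have hb' : ∀ j, ⟪e j, y⟫_ℝ = b j := fun j => by rw [hb]
  simp only [ha', hb']
  have e0 : ∑ j, (a j - τ j) ^ 2 + ∑ j, (b j - τ j) ^ 2 =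
      2 * ∑ j, (1 / 2 * (a j + b j) - τ j) ^ 2 + (1 / 2) * ∑ j, (a j - b j) ^ 2 := by
    rw [Finset.mul_sum, Finset.mul_sum, ← Finset.sum_add_distrib, ← Finset.sum_add_distrib]
    refine Finset.sum_congr rfl fun j _ => ?_
    ring
  obtain ⟨A, hA⟩ : ∃ A : ℝ, A = ∑ j, (a j - τ j) ^ 2 := ⟨_, rfl⟩
  obtain ⟨B, hB⟩ : ∃ B : ℝ, B = ∑ j, (b j - τ j) ^ 2 := ⟨_, rfl⟩
  obtain ⟨M, hM⟩ : ∃ M : ℝ, M = ∑ j, (1 / 2 * (a j + b j) - τ j) ^ 2 := ⟨_, rfl⟩
  obtain ⟨D, hD⟩ : ∃ D : ℝ, D = ∑ j, (a j - b j) ^ 2 := ⟨_, rfl⟩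
  rw [← hA, ← hB, ← hM, ← hD] at e0
  rw [← hA, ← hB, ← hM, ← hD]
  have e3 : Real.exp (-(A / (2 * K))) * Real.exp (-(B / (2 * K))) =
      Real.exp (-(M / (2 * K))) ^ 2 * Real.exp (-(D / (4 * K))) := by
    rw [← Real.exp_add, ← Real.exp_nat_mul, ← Real.exp_add]
    congr 1
    have e4 : A = 2 * M + 1 / 2 * D - B := by linarith
    rw [e4]
    push_cast
    field_simp
    ring
  calc ρ x * Real.exp (-(A / (2 * K))) * (ρ y * Real.exp (-(B / (2 * K))))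
      = (ρ x * ρ y) * (Real.exp (-(A / (2 * K))) * Real.exp (-(B / (2 * K)))) := by ring
    _ = (ρ x * ρ y) * (Real.exp (-(M / (2 * K))) ^ 2 * Real.exp (-(D / (4 * K)))) := by rw [e3]
    _ ≤ (ρ ((1 / 2 : ℝ) • (x + y))) ^ 2 * (Real.exp (-(M / (2 * K))) ^ 2 *
        Real.exp (-(D / (4 * K)))) := mul_le_mul_of_nonneg_right h1 (by positivity)
    _ = _ := by ring

end gen

theorem sx_indicator {n : ℕ} (ρ : E n → ℝ) (h : Sx ρ) (S : Set (E n)) (hc : Convex ℝ S)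
    (hm : MeasurableSet S)
    (hi : ∀ σ : Equiv.Perm (Fin n), ∀ x y : E n, (∀ i, y i = x (σ i)) → (y ∈ S ↔ x ∈ S)) :
    Sx (S.indicator ρ) := by
  have hnn : ∀ x, 0 ≤ S.indicator ρ x := fun x => Set.indicator_nonneg (fun y _ => h.nonneg y) x
  refine ⟨hnn, h.meas.indicator hm, ?_, ?_⟩
  · intro x y t ht0 ht1
    by_cases hx : x ∈ S
    · by_cases hy : y ∈ S
      · have hxy : (1 - t) • x + t • y ∈ S :=
          hc hx hy (by linarith) (by linarith) (by ring)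
        rw [Set.indicator_of_mem hx, Set.indicator_of_mem hy, Set.indicator_of_mem hxy]
        exact h.logc x y t ht0 ht1
      · rw [Set.indicator_of_notMem hy, Real.zero_rpow (by linarith), mul_zero]
        exact hnn _
    · rw [Set.indicator_of_notMem hx, Real.zero_rpow (by linarith), zero_mul]
      exact hnn _
  · intro σ x y hxy
    by_cases hx : x ∈ S
    · rw [Set.indicator_of_mem hx, Set.indicator_of_mem ((hi σ x y hxy).2 hx)]
      exact h.inv σ x y hxy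
    · rw [Set.indicator_of_notMem hx, Set.indicator_of_notMem (fun hy => hx ((hi σ x y hxy).1 hy))]

theorem nm_inv {n : ℕ} (σ : Equiv.Perm (Fin n)) (x y : E n) (hxy : ∀ i, y i = x (σ i)) :
    nm y = nm x := by
  unfold nm
  rw [Finset.sum_congr rfl fun i _ => congrArg abs (hxy i)]
  exact Equiv.sum_comp σ fun i => |x i|

theorem norm_inv {n : ℕ} (σ : Equiv.Perm (Fin n)) (x y : E n) (hxy : ∀ i, y i = x (σ i)) :
    ‖y‖ = ‖x‖ := by
  rw [EuclideanSpace.norm_eq, EuclideanSpace.norm_eq]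
  congr 1
  rw [← Equiv.sum_comp σ fun i => ‖x i‖ ^ 2]
  refine Finset.sum_congr rfl fun i _ => ?_
  rw [hxy i]

theorem continuous_nm {n : ℕ} : Continuous (nm : E n → ℝ) := by
  unfold nm
  refine continuous_finsetSum _ fun j _ => ?_
  exact (EuclideanSpace.proj (𝕜 := ℝ) j).continuous.abs

theorem convex_nm {n : ℕ} (r : ℝ) : Convex ℝ {x : E n | nm x ≤ r} := by
  intro x hx y hy a b ha hb hab
  simp only [Set.mem_ofPred_eq] at hx hy ⊢
  have h1 : nm (a • x + b • y) ≤ a * nm x + b * nm y := by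
    unfold nm
    rw [Finset.mul_sum, Finset.mul_sum, ← Finset.sum_add_distrib]
    refine Finset.sum_le_sum fun j _ => ?_
    have : (a • x + b • y) j = a * x j + b * y j := by simp
    rw [this]
    calc |a * x j + b * y j| ≤ |a * x j| + |b * y j| := abs_add_le _ _
      _ = a * |x j| + b * |y j| := by rw [abs_mul, abs_mul, abs_of_nonneg ha, abs_of_nonneg hb]
  calc nm (a • x + b • y) ≤ a * nm x + b * nm y := h1
    _ ≤ a * r + b * r := add_le_add (mul_le_mul_of_nonneg_left hx ha)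
        (mul_le_mul_of_nonneg_left hy hb)
    _ = r := by rw [← add_mul, hab, one_mul]

theorem inner_ee {n : ℕ} (x : E n) : ⟪ee n, x⟫_ℝ = ∑ i, x i * (1 / Real.sqrt n) := by
  unfold ee
  rw [PiLp.inner_apply]
  refine Finset.sum_congr rfl fun i _ => ?_
  simp

theorem inner_inv {n : ℕ} (σ : Equiv.Perm (Fin n)) (x y : E n) (hxy : ∀ i, y i = x (σ i)) :
    ⟪ee n, y⟫_ℝ = ⟪ee n, x⟫_ℝ := by
  rw [inner_ee, inner_ee, ← Equiv.sum_comp σ fun i => x i * (1 / Real.sqrt n)]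
  refine Finset.sum_congr rfl fun i _ => ?_
  rw [hxy i]

theorem bas : S_BAS := by
  intro n ρ h
  refine ⟨?_, ?_, ?_, ?_, ?_⟩
  · intro r
    refine sx_indicator ρ h _ (convex_nm r) ?_ ?_
    · exact (isClosed_le continuous_nm continuous_const).measurableSet
    · intro σ x y hxy
      simp only [Set.mem_ofPred_eq]
      rw [nm_inv σ x y hxy]
  · intro r
    refine sx_indicator ρ h _ ?_ ?_ ?_
    · have : {x : E n | ‖x‖ ≤ r} = Metric.closedBall 0 r := by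
        ext x
        simp
      rw [this]
      exact convex_closedBall 0 r
    · exact (isClosed_le continuous_norm continuous_const).measurableSet
    · intro σ x y hxy
      simp only [Set.mem_ofPred_eq]
      rw [norm_inv σ x y hxy]
  · intro c hc
    refine ⟨fun x => mul_nonneg hc (h.nonneg x), h.meas.const_mul c, ?_, ?_⟩
    · intro x y t ht0 ht1
      have h1 := h.logc x y t ht0 ht1
      rw [Real.mul_rpow hc (h.nonneg x), Real.mul_rpow hc (h.nonneg y)]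
      rcases hc.eq_or_lt with h0 | h0
      · subst h0
        rw [Real.zero_rpow (by linarith), Real.zero_rpow (by linarith)]
        simp
      · have h2 : c ^ (1 - t) * c ^ t = c := by
          rw [← Real.rpow_add h0]
          norm_num
        calc c ^ (1 - t) * ρ x ^ (1 - t) * (c ^ t * ρ y ^ t)
            = (c ^ (1 - t) * c ^ t) * (ρ x ^ (1 - t) * ρ y ^ t) := by ring
          _ = c * (ρ x ^ (1 - t) * ρ y ^ t) := by rw [h2]
          _ ≤ c * ρ ((1 - t) • x + t • y) := mul_le_mul_of_nonneg_left h1 hc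
    · intro σ x y hxy
      show c * ρ y = c * ρ x
      rw [h.inv σ x y hxy]
  · intro c
    refine ⟨fun x => h.nonneg _, h.meas.comp (measurable_id.add_const _), ?_, ?_⟩
    · intro x y t ht0 ht1
      have h1 := h.logc (x + c • ee n) (y + c • ee n) t ht0 ht1
      have e1 : (1 - t) • (x + c • ee n) + t • (y + c • ee n) =
          (1 - t) • x + t • y + c • ee n := by
        module
      rw [e1] at h1
      exact h1
    · intro σ x y hxy
      apply h.inv σ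
      intro i
      simp [ee, hxy i]
  · intro K hK τ _
    refine ⟨⟨?_, ?_, ?_, ?_⟩, ?_⟩
    · intro x
      exact mul_nonneg (h.nonneg x) (Real.exp_pos _).le
    · exact h.meas.mul (tw_cont _ K τ).measurable
    · intro x y t ht0 ht1
      exact tilt_logc ρ h.nonneg h.logc _ K hK τ x y t ht0 ht1
    · intro σ x y hxy
      show ρ y * tw (fun _ : Fin 1 => ee n) K τ y = ρ x * tw (fun _ : Fin 1 => ee n) K τ x
      rw [h.inv σ x y hxy]
      have h9 : tw (fun _ : Fin 1 => ee n) K τ y = tw (fun _ : Fin 1 => ee n) K τ x := by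
        unfold tw
        simp only [inner_inv σ x y hxy]
      rw [h9]
    · exact tilt_st ρ h.nonneg h.logc _ K hK τ

end Pool.Agent.W327.SX
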